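import Mathlib
import Pool.Agent.H5.Canon

set_option autoImplicit false

namespace Pool.Agent.Results.MP_6d0d7d_lc.Equiv

open Filter Topology

/-- Pointwise convergence on `Y^X`, with `Y` discrete. -/
@[reducible] def ptTop (X Y : Type) : TopologicalSpace (X → Y) :=
  @Pi.topologicalSpace X (fun _ => Y) (fun _ => ⊥)

/-- `G` is closed in `Sym(X)` for pointwise convergence. -/
def IsClosedPerm {X : Type} (G : Subgroup (Equiv.Perm X)) : Prop :=
  @IsClosed (Equiv.Perm X)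
    (TopologicalSpace.induced (fun g : Equiv.Perm X => (g : X → X)) (ptTop X X)) G

/-- The topology of pointwise convergence on `G`. -/
@[reducible] def grpTop {X : Type} (G : Subgroup (Equiv.Perm X)) : TopologicalSpace G :=
  TopologicalSpace.induced (fun g : G => (g.1 : X → X)) (ptTop X X)

/-- Every continuous action of `G` on a nonempty compact Hausdorff space has a fixed point. -/
def ExtAmenable {X : Type} (G : Subgroup (Equiv.Perm X)) : Prop :=
  ∀ (K : Type) [tK : TopologicalSpace K] [CompactSpace K] [T2Space K] [Nonempty K] [MulAction G K],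
    @Continuous (G × K) K (@instTopologicalSpaceProd G K (grpTop G) tK) tK (fun p => p.1 • p.2) →
    ∃ x : K, ∀ g : G, g • x = x

/-- Finitely many orbits on `n`-tuples for every `n ≥ 1`. -/
def Oligomorphic {Y : Type} (H : Subgroup (Equiv.Perm Y)) : Prop :=
  ∀ n : ℕ, 1 ≤ n → Finite (MulAction.orbitRel.Quotient H (Fin n → Y))

/-- `f` is canonical with respect to `G` and `H`. -/
def Canonical {X Y : Type} (G : Subgroup (Equiv.Perm X)) (H : Subgroup (Equiv.Perm Y))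
    (f : X → Y) : Prop :=
  ∀ n : ℕ, 1 ≤ n → ∀ a : Fin n → X, ∀ α ∈ G, ∃ β ∈ H, ∀ i, f (α (a i)) = β (f (a i))

/-- The set `H f G`. -/
def doubleOrbit {X Y : Type} (G : Subgroup (Equiv.Perm X)) (H : Subgroup (Equiv.Perm Y))
    (f : X → Y) : Set (X → Y) :=
  {u | ∃ β ∈ H, ∃ α ∈ G, u = β ∘ f ∘ α}

/-- The canonisation property of `G` for oligomorphic groups on the target set `Y`. -/
def Canonises {X : Type} (G : Subgroup (Equiv.Perm X)) (Y : Type) : Prop :=
  ∀ H : Subgroup (Equiv.Perm Y), Oligomorphic H → ∀ f : X → Y,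
    ∃ g ∈ @closure (X → Y) (ptTop X Y) (doubleOrbit G H f), Canonical G H g

theorem ev_agree {ι : Type} {A : ι → Type} [∀ i, TopologicalSpace (A i)]
    [∀ i, DiscreteTopology (A i)] (g : ∀ i, A i) (i : ι) : ∀ᶠ u in nhds g, u i = g i :=
  (continuous_apply i).continuousAt.preimage_mem_nhds ((isOpen_discrete {g i}).mem_nhds rfl)

theorem nhds_agree {X Y : Type} (g : X → Y) {ι : Type} [Finite ι] (a : ι → X) :
    {u : X → Y | ∀ i, u (a i) = g (a i)} ∈ @nhds _ (ptTop X Y) g := by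
  let : TopologicalSpace Y := ⊥
  have : DiscreteTopology Y := ⟨rfl⟩
  have h : ∀ i, ∀ᶠ u in nhds g, u (a i) = g (a i) := fun i => ev_agree g (a i)
  exact eventually_all.2 h

theorem ramsey {X : Type} [Countable X] [Nonempty X] (G : Subgroup (Equiv.Perm X))
    (h : ∀ (Y : Type) [Countable Y], Canonises G Y) (n : ℕ) (κ : Type) [Finite κ]
    (χ : (Fin (n + 1) → X) → κ) (a : Fin (n + 1) → X) (γ : κ → G) :
    ∃ α : G, ∀ k, χ (fun i => α.1 ((γ k).1 (a i))) = χ (fun i => α.1 (a i)) := by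
  obtain ⟨Y, hY, H, f, h1, h2⟩ := H5.Canon.univ' X n κ χ
  obtain ⟨g, hg, hc⟩ := h Y H (fun m _ => h1 m) f
  let b : (κ × Fin (n + 1)) ⊕ Fin (n + 1) → X :=
    Sum.elim (fun p => (γ p.1).1 (a p.2)) a
  obtain ⟨u, hu, β, hβ, α, hα, rfl⟩ :=
    (@mem_closure_iff_nhds _ (ptTop X Y) _ _).1 hg _ (nhds_agree g b)
  refine ⟨⟨α, hα⟩, fun k => ?_⟩
  obtain ⟨δ, hδ, h3⟩ := hc (n + 1) (Nat.succ_pos n) a (γ k).1 (γ k).2
  refine h2 _ _ ⟨β⁻¹ * δ * β, H.mul_mem (H.mul_mem (H.inv_mem hβ) hδ) hβ⟩ fun i => ?_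
  have h4 : β (f (α ((γ k).1 (a i)))) = g ((γ k).1 (a i)) := hu (Sum.inl (k, i))
  have h5 : β (f (α (a i))) = g (a i) := hu (Sum.inr i)
  change f (α ((γ k).1 (a i))) = β.symm (δ (β (f (α (a i)))))
  rw [h5, ← h3, ← h4, Equiv.symm_apply_apply]

theorem nhds_one {X : Type} (G : Subgroup (Equiv.Perm X)) (N : Set G)
    (hN : N ∈ @nhds _ (grpTop G) 1) : ∃ A : Finset X, ∀ v : G, (∀ x ∈ A, v.1 x = x) → v ∈ N := by
  let : TopologicalSpace X := ⊥
  have : DiscreteTopology X := ⟨rfl⟩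
  rw [nhds_induced, mem_comap] at hN
  obtain ⟨T, hT, hTN⟩ := hN
  rw [nhds_pi, mem_pi] at hT
  obtain ⟨I, hI, t, ht, hIt⟩ := hT
  refine ⟨hI.toFinset, fun v hv => hTN (hIt fun x hx => ?_)⟩
  have h1 := mem_of_mem_nhds (ht x)
  change v.1 x ∈ t x
  rw [hv x (hI.mem_toFinset.2 hx)]
  exact h1

theorem conv {X : Type} [Countable X] (G : Subgroup (Equiv.Perm X))
    (h : ∀ (Y : Type) [Countable Y], Canonises G Y) : ExtAmenable G := by
  classical
  intro K tK _ _ _ _ hc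
  let : TopologicalSpace G := grpTop G
  by_contra hne
  push Not at hne
  choose γ hγ using hne
  rcases isEmpty_or_nonempty X with hX | hX
  · obtain ⟨x⟩ := ‹Nonempty K›
    apply hγ x
    have : γ x = 1 := Subtype.ext (Subsingleton.elim _ _)
    rw [this, one_smul]
  have hloc : ∀ x : K, ∃ (W : Set K) (A : Finset X), W ∈ nhds x ∧
      ∀ (v w : G) (y z : K), (∀ t ∈ A, v.1 t = t) → (∀ t ∈ A, w.1 t = t) → y ∈ W → z ∈ W →
        γ x • v • y ≠ w • z := by
    intro x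
    obtain ⟨U1, U2, h1, h2, h3, h4, h5⟩ := t2_separation (hγ x)
    have hcx : Continuous (fun y : K => γ x • y) :=
      hc.comp (continuous_const.prodMk continuous_id)
    have hU : (fun y : K => γ x • y) ⁻¹' U1 ∩ U2 ∈ nhds x :=
      inter_mem (hcx.continuousAt.preimage_mem_nhds (h1.mem_nhds h3)) (h2.mem_nhds h4)
    have h6 : (fun p : G × K => p.1 • p.2) ⁻¹' ((fun y : K => γ x • y) ⁻¹' U1 ∩ U2)
        ∈ nhds ((1 : G), x) := hc.continuousAt.preimage_mem_nhds (by simpa using hU)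
    obtain ⟨N, hN, W, hW, hNW⟩ := mem_nhds_prod_iff.1 h6
    obtain ⟨A, hA⟩ := nhds_one G N hN
    refine ⟨W, A, hW, fun v w y z hv hw hy hz he => ?_⟩
    have h7 := (hNW (Set.mk_mem_prod (hA v hv) hy)).1
    have h8 := (hNW (Set.mk_mem_prod (hA w hw) hz)).2
    have h9 : γ x • v • y ∈ U1 := h7
    rw [he] at h9
    exact Set.disjoint_left.1 h5 h9 h8
  choose W A hW hA using hloc
  obtain ⟨T, hT⟩ := CompactSpace.elim_nhds_subcover W hW
  have hcov : ∀ y : K, ∃ x : T, y ∈ W x := by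
    intro y
    have : y ∈ ⋃ x ∈ T, W x := hT ▸ Set.mem_univ y
    simp only [Set.mem_iUnion] at this
    obtain ⟨x, hx, hy⟩ := this
    exact ⟨⟨x, hx⟩, hy⟩
  choose c hcW using hcov
  obtain ⟨ξ⟩ := ‹Nonempty K›
  obtain ⟨x0⟩ := hX
  let B : Finset X := T.biUnion A
  let a : Fin (B.card + 1) → X := Fin.cons x0 (fun i => B.equivFin.symm i)
  have ha : ∀ x : T, ∀ t ∈ A x, ∃ i, a i = t := by
    intro x t ht
    have : t ∈ B := Finset.mem_biUnion.2 ⟨x, x.2, ht⟩
    exact ⟨(B.equivFin ⟨t, this⟩).succ, by simp [a]⟩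
  have hrep : ∀ t : Fin (B.card + 1) → X, ∃ r : G,
      (∃ s : G, ∀ i, s.1 (a i) = t i) → ∀ i, r.1 (a i) = t i := by
    intro t
    by_cases h : ∃ s : G, ∀ i, s.1 (a i) = t i
    · obtain ⟨s, hs⟩ := h
      exact ⟨s, fun _ => hs⟩
    · exact ⟨1, fun h' => absurd h' h⟩
  choose r hr using hrep
  let χ : (Fin (B.card + 1) → X) → T := fun t => c ((r t)⁻¹ • ξ)
  have hχ : ∀ s : G, ∃ (v : G) (y : K), (∀ i, v.1 (a i) = a i) ∧
      y ∈ W (χ fun i => s.1 (a i)) ∧ s⁻¹ • ξ = v • y := by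
    intro s
    have h1 := hr (fun i => s.1 (a i)) ⟨s, fun _ => rfl⟩
    refine ⟨s⁻¹ * r (fun i => s.1 (a i)), (r (fun i => s.1 (a i)))⁻¹ • ξ, fun i => ?_, hcW _, ?_⟩
    · change s.1.symm ((r fun i => s.1 (a i)).1 (a i)) = a i
      rw [h1, Equiv.symm_apply_apply]
    · rw [smul_smul, mul_inv_cancel_right]
  have : Nonempty X := ⟨x0⟩
  obtain ⟨α, hα⟩ := ramsey G h B.card T χ a (fun x => (γ x)⁻¹)
  let j : T := χ fun i => α.1 (a i)
  obtain ⟨v, y, hv, hy, he⟩ := hχ α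
  obtain ⟨w, z, hw, hz, he'⟩ := hχ (α * (γ j)⁻¹)
  have h2 : (χ fun i => (α * (γ j)⁻¹).1 (a i)) = j := hα j
  rw [h2] at hz
  have hfix : ∀ v : G, (∀ i, v.1 (a i) = a i) → ∀ t ∈ A j, v.1 t = t := by
    intro v hv t ht
    obtain ⟨i, rfl⟩ := ha j t ht
    exact hv i
  apply hA j v w y z (hfix v hv) (hfix w hw) hy hz
  rw [← he, ← he', mul_inv_rev, inv_inv, mul_smul]

theorem forw {X : Type} [Countable X] (G : Subgroup (Equiv.Perm X)) (h : ExtAmenable G)
    (Y : Type) : Canonises G Y := by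
  classical
  intro H hH f
  let tY : TopologicalSpace Y := ⊥
  have : DiscreteTopology Y := ⟨rfl⟩
  rcases isEmpty_or_nonempty X with hX | hX
  · refine ⟨f, subset_closure ⟨1, H.one_mem, 1, G.one_mem, rfl⟩, ?_⟩
    intro n hn a
    exact (hX.false (a ⟨0, hn⟩)).elim
  let P := Σ n : ℕ, Fin (n + 1) → X
  let O : P → Type := fun p => MulAction.orbitRel.Quotient H (Fin (p.1 + 1) → Y)
  let tO : ∀ p, TopologicalSpace (O p) := fun _ => ⊥
  have dO : ∀ p, DiscreteTopology (O p) := fun _ => ⟨rfl⟩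
  have fO : ∀ p, Finite (O p) := fun p => hH _ (Nat.succ_pos _)
  let K0 := ∀ p : P, O p
  let act : MulAction G K0 :=
    { smul := fun α φ p => φ ⟨p.1, fun i => α.1.symm (p.2 i)⟩
      one_smul := fun φ => rfl
      mul_smul := fun α β φ => rfl }
  have hsm : ∀ (α : G) (φ : K0) (p : P), (α • φ) p = φ ⟨p.1, fun i => α.1.symm (p.2 i)⟩ :=
    fun _ _ _ => rfl
  let tG : TopologicalSpace G := grpTop G
  have hcont : Continuous (fun q : G × K0 => q.1 • q.2) := by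
    refine continuous_pi fun p => continuous_iff_continuousAt.2 fun q => ?_
    let tX : TopologicalSpace X := ⊥
    have h1 : ∀ᶠ α : G in nhds q.1, ∀ i, α.1 (q.1.1.symm (p.2 i)) = q.1.1 (q.1.1.symm (p.2 i)) :=
      (continuous_induced_dom (f := fun g : G => (g.1 : X → X))).continuousAt.preimage_mem_nhds
        (nhds_agree (q.1.1 : X → X) (fun i => q.1.1.symm (p.2 i)))
    have h2 : ∀ᶠ φ : K0 in nhds q.2, φ ⟨p.1, fun i => q.1.1.symm (p.2 i)⟩
        = q.2 ⟨p.1, fun i => q.1.1.symm (p.2 i)⟩ :=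
      ev_agree (A := O) q.2 ⟨p.1, fun i => q.1.1.symm (p.2 i)⟩
    refine (continuousAt_const (y := (q.1 • q.2) p)).congr ?_
    filter_upwards [h1.prod_nhds h2] with r hr
    have h3 : (fun i => r.1.1.symm (p.2 i)) = fun i => q.1.1.symm (p.2 i) := by
      funext i
      rw [Equiv.symm_apply_eq, hr.1 i, Equiv.apply_symm_apply]
    have h4 : ∀ s t : Fin (p.1 + 1) → X, s = t → r.2 ⟨p.1, s⟩ = r.2 ⟨p.1, t⟩ := by
      rintro s t rfl
      rfl
    rw [hsm, hsm]
    exact hr.2.symm.trans (h4 _ _ h3.symm)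
  let T : (X → Y) → K0 := fun u p => Quotient.mk _ (fun i => u (p.2 i))
  let R : Set K0 := Set.range (fun α : G => T (f ∘ α.1))
  let K : SubMulAction G K0 :=
    { carrier := closure R
      smul_mem' := fun α φ hφ => by
        refine map_mem_closure (f := fun φ : K0 => α • φ)
          (hcont.comp (continuous_const.prodMk continuous_id)) hφ ?_
        rintro _ ⟨β, rfl⟩
        exact ⟨β * α⁻¹, rfl⟩ }
  have : CompactSpace K := isCompact_iff_compactSpace.1 (isClosed_closure (s := R)).isCompact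
  have : Nonempty K := ⟨⟨T (f ∘ (1 : G).1), subset_closure ⟨1, rfl⟩⟩⟩
  obtain ⟨⟨φ, hφ⟩, hfix⟩ := h K
    ((hcont.comp (continuous_fst.prodMk (continuous_subtype_val.comp continuous_snd))).subtype_mk _)
  have hfix' : ∀ α : G, α • φ = φ := fun α => congrArg Subtype.val (hfix α)
  have happ : ∀ p q : P, ∃ α : G, T (f ∘ α.1) p = φ p ∧ T (f ∘ α.1) q = φ q := by
    intro p q
    have h1 : ∀ p : P, ∀ᶠ ψ : K0 in nhds φ, ψ p = φ p := fun p => ev_agree (A := O) φ p
    obtain ⟨ψ, hψ, α, rfl⟩ := mem_closure_iff_nhds.1 hφ _ ((h1 p).and (h1 q))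
    exact ⟨α, hψ⟩
  obtain ⟨e, he⟩ := exists_surjective_nat X
  let p : ℕ → P := fun m => ⟨m, fun i => e i⟩
  have hT : ∀ (u v : X → Y) (q : P), T u q = T v q ↔ ∃ β : H, ∀ i, u (q.2 i) = β.1 (v (q.2 i)) := by
    intro u v q
    constructor
    · intro h1
      obtain ⟨β, hβ⟩ := Quotient.exact h1
      exact ⟨β, fun i => (congrFun hβ i).symm⟩
    · rintro ⟨β, hβ⟩
      exact Quotient.sound ⟨β, funext fun i => (hβ i).symm⟩
  have hTβ : ∀ (β : H) (v : X → Y) (q : P), T (β.1 ∘ v) q = T v q :=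
    fun β v q => (hT _ _ q).2 ⟨β, fun _ => rfl⟩
  have hstep : ∀ (m : ℕ) (w : {w : X → Y // w ∈ doubleOrbit G H f ∧ T w (p m) = φ (p m)}),
      ∃ w' : {w : X → Y // w ∈ doubleOrbit G H f ∧ T w (p (m + 1)) = φ (p (m + 1))},
        ∀ i ≤ m, w'.1 (e i) = w.1 (e i) := by
    intro m w
    obtain ⟨α, h1, h2⟩ := happ (p m) (p (m + 1))
    obtain ⟨β, hβ⟩ := (hT _ _ _).1 (w.2.2.trans h1.symm)
    refine ⟨⟨β.1 ∘ f ∘ α.1, ⟨β.1, β.2, α.1, α.2, rfl⟩, (hTβ β _ _).trans h2⟩, fun i hi => ?_⟩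
    exact (hβ ⟨i, Nat.lt_succ_of_le hi⟩).symm
  choose F hF using hstep
  obtain ⟨α0, h0, -⟩ := happ (p 0) (p 0)
  let w : ∀ m : ℕ, {w : X → Y // w ∈ doubleOrbit G H f ∧ T w (p m) = φ (p m)} := fun m =>
    Nat.rec ⟨f ∘ α0.1, ⟨1, H.one_mem, α0.1, α0.2, rfl⟩, h0⟩ F m
  have hw : ∀ i m, i ≤ m → (w m).1 (e i) = (w i).1 (e i) := by
    intro i m him
    induction m, him using Nat.le_induction with
    | base => rfl
    | succ m him ih => exact (hF m (w m) i him).trans ih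
  choose idx hidx using he
  let g : X → Y := fun x => (w (idx x)).1 x
  have hg : ∀ x m, idx x ≤ m → (w m).1 x = g x := by
    intro x m hm
    have := hw (idx x) m hm
    rw [hidx] at this
    exact this
  have hg' : ∀ i m, i ≤ m → (w m).1 (e i) = g (e i) := by
    intro i m hm
    rw [hw i m hm, ← hw i (max i (idx (e i))) (le_max_left _ _), hg _ _ (le_max_right _ _)]
  have hTg : ∀ q : P, T g q = φ q := by
    intro q
    let m : ℕ := Finset.univ.sup fun i => idx (q.2 i)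
    have hm : ∀ i, idx (q.2 i) ≤ m := fun i =>
      Finset.le_sup (f := fun i => idx (q.2 i)) (Finset.mem_univ i)
    obtain ⟨α, h1, h2⟩ := happ (p m) q
    obtain ⟨β, hβ⟩ := (hT _ _ _).1 ((w m).2.2.trans h1.symm)
    rw [← h2]
    refine (hT _ _ _).2 ⟨β, fun i => ?_⟩
    have h3 := hβ ⟨idx (q.2 i), Nat.lt_succ_of_le (hm i)⟩
    simp only [p, hidx] at h3
    rw [← h3, hg _ _ (hm i)]
  refine ⟨g, ?_, ?_⟩
  · refine mem_closure_of_tendsto (f := fun m => (w m).1) (b := atTop) ?_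
      (Eventually.of_forall fun m => (w m).2.1)
    refine tendsto_pi_nhds.2 fun x => tendsto_const_nhds.congr' ?_
    filter_upwards [eventually_ge_atTop (idx x)] with m hm using (hg x m hm).symm
  · intro n hn a α hα
    obtain ⟨n, rfl⟩ := Nat.exists_eq_add_of_le' hn
    have h1 := congrFun (hfix' (⟨α, hα⟩ : G)⁻¹) ⟨n, a⟩
    rw [hsm, ← hTg, ← hTg] at h1
    obtain ⟨β, hβ⟩ := Quotient.exact h1
    exact ⟨β.1, β.2, fun i => (congrFun hβ i).symm⟩

theorem result (X : Type) [Countable X] (G : Subgroup (Equiv.Perm X)) (_hG : IsClosedPerm G) :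
    (ExtAmenable G ↔ ∀ Y : Type, Canonises G Y) ∧
    (ExtAmenable G ↔ ∀ (Y : Type) [Countable Y], Canonises G Y) :=
  ⟨⟨fun h Y => forw G h Y, fun h => conv G fun Y _ => h Y⟩,
    ⟨fun h Y _ => forw G h Y, fun h => conv G h⟩⟩

end Pool.Agent.Results.MP_6d0d7d_lc.Equiv
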